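import Pool.Agent.helper62.VQ.SpecE

/-!
# Project VQ (MP_07c750_an), block 5, row CLO: close fields have close averages
-/

set_option autoImplicit false

open scoped MatrixGroups ContDiff Topology UpperHalfPlane
open UpperHalfPlane MeasureTheory Filter Set

namespace Pool.Agent.VQE

open Pool.Agent.RS

noncomputable section

/-- the difference to `1`, as a vector with the supremum norm -/
def CLO_V (E : SL(2, ℝ)) : (ℝ × ℝ) × (ℝ × ℝ) := ((E.1 0 0 - 1, E.1 0 1), (E.1 1 0, E.1 1 1 - 1))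

theorem CLO_norm (E : SL(2, ℝ)) : ‖CLO_V E‖ = nm E := by
  simp only [CLO_V, Prod.norm_def, Real.norm_eq_abs, nm]

/-- the derivative of `G1⁻¹ G2` -/
def CLO_V' (E : SL(2, ℝ)) (p q P Q : ℝ) : (ℝ × ℝ) × (ℝ × ℝ) :=
  ((E.1 0 0 * (P - p) / 2 + E.1 0 1 * Q + q * E.1 1 0, -(E.1 0 0 * Q) - E.1 0 1 * (P + p) / 2 + q * E.1 1 1),
    (E.1 1 0 * (P + p) / 2 + E.1 1 1 * Q - q * E.1 0 0, -(E.1 1 0 * Q) - E.1 1 1 * (P - p) / 2 - q * E.1 0 1))

/-- `G` has the derivative `G X`, `X = [[p/2, -q], [q, -p/2]]`, at `t` -/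
structure CLO_D (G : ℝ → SL(2, ℝ)) (p q t : ℝ) : Prop where
  d0 : ∀ i : Fin 2, HasDerivAt (fun s => (G s).1 i 0) ((G t).1 i 0 * (p / 2) + (G t).1 i 1 * q) t
  d1 : ∀ i : Fin 2, HasDerivAt (fun s => (G s).1 i 1) (-((G t).1 i 0 * q) - (G t).1 i 1 * (p / 2)) t

theorem CLO_inv (A B : SL(2, ℝ)) : (A⁻¹ * B).1 0 0 = A.1 1 1 * B.1 0 0 - A.1 0 1 * B.1 1 0 ∧
    (A⁻¹ * B).1 0 1 = A.1 1 1 * B.1 0 1 - A.1 0 1 * B.1 1 1 ∧
    (A⁻¹ * B).1 1 0 = -(A.1 1 0 * B.1 0 0) + A.1 0 0 * B.1 1 0 ∧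
    (A⁻¹ * B).1 1 1 = -(A.1 1 0 * B.1 0 1) + A.1 0 0 * B.1 1 1 := by
  have h : (A⁻¹ * B).1 = A.1.adjugate * B.1 := by
    rw [← Matrix.SpecialLinearGroup.coe_inv A]
    rfl
  rw [h, Matrix.adjugate_fin_two]
  refine ⟨?_, ?_, ?_, ?_⟩ <;> simp [Matrix.mul_apply, Fin.sum_univ_two] <;> ring

theorem CLO_deriv (G1 G2 : ℝ → SL(2, ℝ)) (p q P Q t : ℝ) (h1 : CLO_D G1 p q t) (h2 : CLO_D G2 P Q t) :
    HasDerivAt (fun s => CLO_V ((G1 s)⁻¹ * G2 s)) (CLO_V' ((G1 t)⁻¹ * G2 t) p q P Q) t := by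
  obtain ⟨e1, e2, e3, e4⟩ := CLO_inv (G1 t) (G2 t)
  have f1 : (fun s => CLO_V ((G1 s)⁻¹ * G2 s)) = fun s =>
      (((G1 s).1 1 1 * (G2 s).1 0 0 - (G1 s).1 0 1 * (G2 s).1 1 0 - 1,
        (G1 s).1 1 1 * (G2 s).1 0 1 - (G1 s).1 0 1 * (G2 s).1 1 1),
      (-((G1 s).1 1 0 * (G2 s).1 0 0) + (G1 s).1 0 0 * (G2 s).1 1 0,
        -((G1 s).1 1 0 * (G2 s).1 0 1) + (G1 s).1 0 0 * (G2 s).1 1 1 - 1)) := by
    funext s
    obtain ⟨g1, g2, g3, g4⟩ := CLO_inv (G1 s) (G2 s)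
    simp only [CLO_V, g1, g2, g3, g4]
  rw [f1]
  refine HasDerivAt.prodMk (HasDerivAt.prodMk ?_ ?_) (HasDerivAt.prodMk ?_ ?_)
  · refine ((((h1.d1 1).mul (h2.d0 0)).sub ((h1.d1 0).mul (h2.d0 1))).sub_const 1).congr_deriv ?_
    simp only [CLO_V', e1, e2, e3, e4]
    ring
  · refine (((h1.d1 1).mul (h2.d1 0)).sub ((h1.d1 0).mul (h2.d1 1))).congr_deriv ?_
    simp only [CLO_V', e1, e2, e3, e4]
    ring
  · refine (((h1.d0 1).mul (h2.d0 0)).neg.add ((h1.d0 0).mul (h2.d0 1))).congr_deriv ?_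
    simp only [CLO_V', e1, e2, e3, e4]
    ring
  · refine ((((h1.d0 1).mul (h2.d1 0)).neg.add ((h1.d0 0).mul (h2.d1 1))).sub_const 1).congr_deriv ?_
    simp only [CLO_V', e1, e2, e3, e4]
    ring

theorem CLO_bound (E : SL(2, ℝ)) (p q P Q B β A : ℝ) (hp : |p| ≤ B) (hP : |P| ≤ B) (hq : |q| ≤ β) (hQ : |Q| ≤ β)
    (hpP : |P - p| ≤ A) (hqQ : |Q - q| ≤ A) : ‖CLO_V' E p q P Q‖ ≤ (B + 2 * β) * nm E + A := by
  have hA : 0 ≤ A := (abs_nonneg _).trans hpP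
  have n1 : |E.1 0 0 - 1| ≤ nm E := (le_max_left _ _).trans (le_max_left _ _)
  have n2 : |E.1 0 1| ≤ nm E := (le_max_right _ _).trans (le_max_left _ _)
  have n3 : |E.1 1 0| ≤ nm E := (le_max_left _ _).trans (le_max_right _ _)
  have n4 : |E.1 1 1 - 1| ≤ nm E := (le_max_right _ _).trans (le_max_right _ _)
  have hn : 0 ≤ nm E := (abs_nonneg _).trans n1
  have key : ∀ x y z w : ℝ, |x| ≤ nm E → |y| ≤ nm E → |z| ≤ nm E → |w| ≤ 2 * B → ∀ a : ℝ, |a| ≤ A →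
      |a + x * w / 2 + y * Q + q * z| ≤ (B + 2 * β) * nm E + A := by
    intro x y z w hx hy hz hw a ha
    have k1 : |x * w / 2| ≤ nm E * B := by
      rw [abs_div, abs_mul, abs_of_pos (by norm_num : (0 : ℝ) < 2)]
      have := mul_le_mul hx hw (abs_nonneg _) hn
      linarith
    have k2 : |y * Q| ≤ nm E * β := by
      rw [abs_mul]
      exact mul_le_mul hy hQ (abs_nonneg _) hn
    have k3 : |q * z| ≤ β * nm E := by
      rw [abs_mul]
      exact mul_le_mul hq hz (abs_nonneg _) ((abs_nonneg _).trans hq)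
    calc |a + x * w / 2 + y * Q + q * z| ≤ |a + x * w / 2 + y * Q| + |q * z| := abs_add_le _ _
      _ ≤ |a + x * w / 2| + |y * Q| + |q * z| := by linarith [abs_add_le (a + x * w / 2) (y * Q)]
      _ ≤ |a| + |x * w / 2| + |y * Q| + |q * z| := by linarith [abs_add_le a (x * w / 2)]
      _ ≤ _ := by linarith
  have wm : |P - p| ≤ 2 * B := by
    have := abs_sub P p
    linarith
  have wp : |P + p| ≤ 2 * B := by
    have := abs_add_le P p
    linarith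
  have ha2 : |(P - p) / 2| ≤ A := by
    rw [abs_div, abs_of_pos (by norm_num : (0 : ℝ) < 2)]
    linarith
  simp only [CLO_V', Prod.norm_def, Real.norm_eq_abs]
  refine max_le (max_le ?_ ?_) (max_le ?_ ?_)
  · have e : E.1 0 0 * (P - p) / 2 + E.1 0 1 * Q + q * E.1 1 0 =
        (P - p) / 2 + (E.1 0 0 - 1) * (P - p) / 2 + E.1 0 1 * Q + q * E.1 1 0 := by ring
    rw [e]
    exact key _ _ _ _ n1 n2 n3 wm _ ha2
  · have e : -(E.1 0 0 * Q) - E.1 0 1 * (P + p) / 2 + q * E.1 1 1 =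
        -(Q - q) + (-E.1 0 1) * (P + p) / 2 + (-(E.1 0 0 - 1)) * Q + q * (E.1 1 1 - 1) := by ring
    rw [e]
    exact key _ _ _ _ (by rwa [abs_neg]) (by rwa [abs_neg]) n4 wp _ (by rwa [abs_neg])
  · have e : E.1 1 0 * (P + p) / 2 + E.1 1 1 * Q - q * E.1 0 0 =
        (Q - q) + E.1 1 0 * (P + p) / 2 + (E.1 1 1 - 1) * Q + q * (-(E.1 0 0 - 1)) := by ring
    rw [e]
    exact key _ _ _ _ n3 n4 (by rwa [abs_neg]) wp _ hqQ
  · have e : -(E.1 1 0 * Q) - E.1 1 1 * (P - p) / 2 - q * E.1 0 1 =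
        -((P - p) / 2) + (-(E.1 1 1 - 1)) * (P - p) / 2 + (-E.1 1 0) * Q + q * (-E.1 0 1) := by ring
    rw [e]
    exact key _ _ _ _ (by rwa [abs_neg]) (by rwa [abs_neg]) (by rwa [abs_neg]) wm _ (by rwa [abs_neg])

/-- Gronwall for relative positions -/
theorem CLO_gron (G1 G2 : ℝ → SL(2, ℝ)) (V' : ℝ → (ℝ × ℝ) × (ℝ × ℝ)) (T K ε : ℝ) (hK : 0 < K) (h0 : G1 0 = G2 0)
    (hc : ContinuousOn (fun s => CLO_V ((G1 s)⁻¹ * G2 s)) (Icc 0 T))
    (hd : ∀ t ∈ Ico 0 T, HasDerivWithinAt (fun s => CLO_V ((G1 s)⁻¹ * G2 s)) (V' t) (Ici t) t)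
    (hb : ∀ t ∈ Ico 0 T, ‖V' t‖ ≤ K * nm ((G1 t)⁻¹ * G2 t) + ε) :
    ∀ t ∈ Icc 0 T, nm ((G1 t)⁻¹ * G2 t) ≤ ε / K * (Real.exp (K * t) - 1) := by
  intro t ht
  have h := norm_le_gronwallBound_of_norm_deriv_right_le (f := fun s => CLO_V ((G1 s)⁻¹ * G2 s)) (f' := V')
    (δ := 0) (K := K) (ε := ε) hc hd (by
      rw [h0]
      simp only [inv_mul_cancel]
      rw [CLO_norm]
      simp [nm]) (by
      intro x hx
      rw [CLO_norm]
      exact hb x hx) t ht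
  rw [gronwallBound_of_K_ne_0 hK.ne', CLO_norm] at h
  simpa using h

theorem CLO_flw {p q : SL(2, ℝ) → ℝ} {f : ℝ → SL(2, ℝ) → SL(2, ℝ)} (h : Flw p q f) (g : SL(2, ℝ)) (t : ℝ) :
    CLO_D (fun s => f s g) (p (f t g)) (q (f t g)) t :=
  ⟨fun i => h.d0 i t g, fun i => h.d1 i t g⟩

theorem CLO_orbit_cont {p q : SL(2, ℝ) → ℝ} {f : ℝ → SL(2, ℝ) → SL(2, ℝ)} (h : Flw p q f) (g : SL(2, ℝ)) :
    Continuous (fun s => f s g) := by
  have h1 : (fun s => f s g) = (fun x : ℝ × SL(2, ℝ) => f x.1 x.2) ∘ (fun s => (s, g)) := rfl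
  rw [h1]
  exact h.cont.comp (by fun_prop)

theorem CLO_proof (h1 : NMB_stmt) : CLO_stmt := by
  intro L T e hL hT he
  obtain ⟨ε, hε⟩ : ∃ ε, ε = min (1 / 10) (e / (L * Real.exp (2 * T) + 1)) := ⟨_, rfl⟩
  have hden : 0 < L * Real.exp (2 * T) + 1 := by positivity
  have hε0 : 0 < ε := by
    rw [hε]
    exact lt_min (by norm_num) (div_pos he hden)
  have hε1 : ε ≤ 1 / 10 := by
    rw [hε]
    exact min_le_left _ _
  have hε2 : ε * (L * Real.exp (2 * T) + 1) ≤ e := by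
    have : ε ≤ e / (L * Real.exp (2 * T) + 1) := by
      rw [hε]
      exact min_le_right _ _
    rwa [le_div_iff₀ hden] at this
  refine ⟨ε, hε0, ?_⟩
  intro Γ δ p q p' q' f f' h hδ0 hδ hF hf hf' hpp hqq hh g
  -- the relative position
  have hnm : ∀ t ∈ Icc 0 T, nm ((f t g)⁻¹ * f' t g) ≤ ε / 2 * (Real.exp (2 * t) - 1) := by
    have hD : ∀ t, HasDerivAt (fun s => CLO_V ((f s g)⁻¹ * f' s g))
        (CLO_V' ((f t g)⁻¹ * f' t g) (p (f t g)) (q (f t g)) (p' (f' t g)) (q' (f' t g))) t := fun t =>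
      CLO_deriv (fun s => f s g) (fun s => f' s g) _ _ _ _ t (CLO_flw hf g t) (CLO_flw hf' g t)
    refine CLO_gron (fun s => f s g) (fun s => f' s g)
      (fun t => CLO_V' ((f t g)⁻¹ * f' t g) (p (f t g)) (q (f t g)) (p' (f' t g)) (q' (f' t g))) T 2 ε
      (by norm_num) ?_ ?_ ?_ ?_
    · show f 0 g = f' 0 g
      rw [hf.zero, hf'.zero]
    · exact fun t _ => (hD t).continuousAt.continuousWithinAt
    · exact fun t _ => (hD t).hasDerivWithinAt
    · intro t _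
      obtain ⟨E, hE⟩ : ∃ E, E = (f t g)⁻¹ * f' t g := ⟨_, rfl⟩
      have hE2 : f' t g = f t g * E := by rw [hE]; group
      have hn : 0 ≤ nm E := h1.1 E
      have a1 : |p (f t g)| ≤ 1 + δ := by
        have := hF.p0 (f t g)
        rw [abs_le] at this ⊢
        constructor <;> linarith
      have a2 : |q (f t g)| ≤ δ := hF.q0 _
      have a3 : |p (f t g * E) - p (f t g)| ≤ δ * nm E := hF.p1 _ _
      have a4 : |q (f t g * E) - q (f t g)| ≤ δ * nm E := hF.q1 _ _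
      have a5 := hpp (f t g * E)
      have a6 := hqq (f t g * E)
      have a7 : |p (f t g * E)| ≤ 1 + δ := by
        have := hF.p0 (f t g * E)
        rw [abs_le] at this ⊢
        constructor <;> linarith
      have a8 : |q (f t g * E)| ≤ δ := hF.q0 _
      show ‖CLO_V' ((f t g)⁻¹ * f' t g) (p (f t g)) (q (f t g)) (p' (f' t g)) (q' (f' t g))‖ ≤
        2 * nm ((f t g)⁻¹ * f' t g) + ε
      rw [← hE, hE2]
      have b1 : |p' (f t g * E)| ≤ 1 + δ + ε := by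
        have := abs_add_le (p' (f t g * E) - p (f t g * E)) (p (f t g * E))
        rw [sub_add_cancel] at this
        linarith
      have b2 : |q' (f t g * E)| ≤ δ + ε := by
        have := abs_add_le (q' (f t g * E) - q (f t g * E)) (q (f t g * E))
        rw [sub_add_cancel] at this
        linarith
      have b3 : |p' (f t g * E) - p (f t g)| ≤ δ * nm E + ε := by
        have := abs_add_le (p' (f t g * E) - p (f t g * E)) (p (f t g * E) - p (f t g))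
        rw [sub_add_sub_cancel] at this
        linarith
      have b4 : |q' (f t g * E) - q (f t g)| ≤ δ * nm E + ε := by
        have := abs_add_le (q' (f t g * E) - q (f t g * E)) (q (f t g * E) - q (f t g))
        rw [sub_add_sub_cancel] at this
        linarith
      have hB := CLO_bound E (p (f t g)) (q (f t g)) (p' (f t g * E)) (q' (f t g * E)) (1 + δ + ε) (δ + ε)
        (δ * nm E + ε) (by linarith) b1 (by linarith) b2 b3 b4
      refine hB.trans ?_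
      have hc : 1 + δ + ε + 2 * (δ + ε) + δ ≤ 2 := by linarith
      nlinarith [mul_le_mul_of_nonneg_right hc hn]
  -- the averages
  have hc1 : Continuous (fun t => h (f t g)) := hh.cont.comp (CLO_orbit_cont hf g)
  have hc2 : Continuous (fun t => h (f' t g)) := hh.cont.comp (CLO_orbit_cont hf' g)
  have hpt : ∀ t ∈ Set.uIoc (0 : ℝ) T, ‖h (f' t g) - h (f t g)‖ ≤ e := by
    intro t ht
    rw [Set.uIoc_of_le hT.le] at ht
    have ht' : t ∈ Icc 0 T := ⟨ht.1.le, ht.2⟩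
    have e1 : f' t g = f t g * ((f t g)⁻¹ * f' t g) := by group
    rw [Real.norm_eq_abs, e1]
    refine (hh.lip _ _).trans ?_
    have e2 := hnm t ht'
    have e3 : Real.exp (2 * t) ≤ Real.exp (2 * T) := Real.exp_le_exp.2 (by linarith [ht.2])
    have e4 : nm ((f t g)⁻¹ * f' t g) ≤ ε * Real.exp (2 * T) := by
      have : 0 < Real.exp (2 * T) := Real.exp_pos _
      nlinarith
    calc L * nm ((f t g)⁻¹ * f' t g) ≤ L * (ε * Real.exp (2 * T)) := mul_le_mul_of_nonneg_left e4 hL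
      _ ≤ e := by nlinarith
  unfold avf
  rw [← mul_sub, ← intervalIntegral.integral_sub (hc2.intervalIntegrable _ _) (hc1.intervalIntegrable _ _), abs_mul]
  have h5 := intervalIntegral.norm_integral_le_of_norm_le_const hpt
  rw [Real.norm_eq_abs, sub_zero, abs_of_pos hT] at h5
  rw [abs_of_pos (inv_pos.2 hT)]
  calc T⁻¹ * |∫ t in (0 : ℝ)..T, (h (f' t g) - h (f t g))| ≤ T⁻¹ * (e * T) :=
        mul_le_mul_of_nonneg_left h5 (inv_pos.2 hT).le
    _ = e := by field_simp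

end

end Pool.Agent.VQE
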