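import Pool.Agent.helper62.VQ.SpecF

/-!
# Project VQ (MP_07c750_an), block 5, row PFB: the fields have bounded derivatives
-/

set_option autoImplicit false

open scoped MatrixGroups ContDiff Topology UpperHalfPlane
open UpperHalfPlane MeasureTheory Filter Set

namespace Pool.Agent.VQE

open Pool.Agent.RS

noncomputable section

/-! ## Smoothness of the potential in the disc coordinate -/

theorem PFB_den (v : ℂ) (hv : ‖v‖ < 2) : (2 : ℂ) - v ≠ 0 := by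
  intro h
  have h1 : v = 2 := (sub_eq_zero.1 h).symm
  rw [h1, Complex.norm_two] at hv
  exact lt_irrefl _ hv

theorem PFB_im (v : ℂ) (hv : ‖v‖ < 2) : 0 < (Complex.I * (2 + v) / (2 - v)).im := by
  have h0 : 0 < Complex.normSq (2 - v) := Complex.normSq_pos.2 (PFB_den v hv)
  have h1 : v.re ^ 2 + v.im ^ 2 < 4 := by
    have h2 : ‖v‖ ^ 2 < 2 ^ 2 := pow_lt_pow_left₀ hv (norm_nonneg _) two_ne_zero
    rw [← Complex.normSq_eq_norm_sq, Complex.normSq_apply] at h2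
    nlinarith
  have h3 : (Complex.I * (2 + v) / (2 - v)).im = (4 - (v.re ^ 2 + v.im ^ 2)) / Complex.normSq (2 - v) := by
    rw [Complex.div_im]
    simp only [Complex.mul_im, Complex.mul_re, Complex.I_re, Complex.I_im, Complex.add_re, Complex.add_im, Complex.sub_re,
      Complex.sub_im, Complex.re_ofNat, Complex.im_ofNat]
    field_simp
    ring
  rw [h3]
  exact div_pos (by linarith) h0

theorem PFB_cdi (v : ℂ) (hv : ‖v‖ < 2) : ((VQ.cdi v : ℍ) : ℂ) = Complex.I * (2 + v) / (2 - v) := by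
  unfold VQ.cdi
  rw [ofComplex_apply_of_im_pos (PFB_im v hv)]

theorem PFB_sl (g : SL(2, ℝ)) (w : ℂ) (hw : 0 < w.im) : ((g.1 1 0 : ℝ) : ℂ) * w + ((g.1 1 1 : ℝ) : ℂ) ≠ 0 := by
  intro h
  have h1 := congrArg Complex.im h
  rw [Complex.add_im, Complex.im_ofReal_mul, Complex.ofReal_im, Complex.zero_im, add_zero] at h1
  have h2 : g.1 1 0 = 0 := (mul_eq_zero.1 h1).resolve_right hw.ne'
  rw [h2, Complex.ofReal_zero, zero_mul, zero_add] at h
  have h3 : g.1 1 1 = 0 := by exact_mod_cast h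
  have h4 := g.2
  rw [Matrix.det_fin_two, h2, h3] at h4
  simp at h4

theorem PFB_coe (g : SL(2, ℝ)) (z : ℍ) : ((g • z : ℍ) : ℂ) =
    (((g.1 0 0 : ℝ) : ℂ) * z + ((g.1 0 1 : ℝ) : ℂ)) / (((g.1 1 0 : ℝ) : ℂ) * z + ((g.1 1 1 : ℝ) : ℂ)) :=
  coe_specialLinearGroup_apply g z

theorem PFB_mob (g : SL(2, ℝ)) : ContDiffOn ℂ ∞ (fun w : ℂ =>
    (((g.1 0 0 : ℝ) : ℂ) * w + ((g.1 0 1 : ℝ) : ℂ)) / (((g.1 1 0 : ℝ) : ℂ) * w + ((g.1 1 1 : ℝ) : ℂ))) {w : ℂ | 0 < w.im} := by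
  refine ContDiffOn.div ?_ ?_ (fun w hw => PFB_sl g w hw)
  · exact ((contDiff_const.mul contDiff_id).add contDiff_const).contDiffOn
  · exact ((contDiff_const.mul contDiff_id).add contDiff_const).contDiffOn

theorem PFB_ball (v : ℂ) (hv : v ∈ Metric.ball (0 : ℂ) 2) : ‖v‖ < 2 := by
  rwa [Metric.mem_ball, dist_zero_right] at hv

theorem PFB_smo : ContDiffOn ℂ ∞ (fun v : ℂ => Complex.I * (2 + v) / (2 - v)) (Metric.ball 0 2) := by
  refine ContDiffOn.div ?_ ?_ (fun v hv => PFB_den v (PFB_ball v hv))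
  · exact (contDiff_const.mul (contDiff_const.add contDiff_id)).contDiffOn
  · exact (contDiff_const.sub contDiff_id).contDiffOn

theorem PFB_smooth (g : SL(2, ℝ)) : ContDiffOn ℝ ∞ (fun v : ℂ => ((g • VQ.cdi v : ℍ) : ℂ)) (Metric.ball 0 2) := by
  have h1 := (PFB_mob g).comp PFB_smo (fun v hv => PFB_im v (PFB_ball v hv))
  refine (h1.restrict_scalars ℝ).congr (fun v hv => ?_)
  rw [PFB_coe, PFB_cdi v (PFB_ball v hv)]
  rfl

theorem PFB_Ug (U : ℍ → ℝ) (hU : QU.CD ∞ U) (g : SL(2, ℝ)) : ContDiffOn ℝ ∞ (VQ.Ug U g) (Metric.ball 0 2) := by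
  have h1 : ContDiffOn ℝ ∞ (QU.onC U ∘ (fun v : ℂ => ((g • VQ.cdi v : ℍ) : ℂ))) (Metric.ball 0 2) :=
    ContDiffOn.comp hU (PFB_smooth g) (fun v _ => (g • VQ.cdi v : ℍ).im_pos)
  refine h1.congr (fun v _ => ?_)
  show U (g • VQ.cdi v) = U (ofComplex ((g • VQ.cdi v : ℍ) : ℂ))
  rw [ofComplex_apply]

theorem PFB_at (U : ℍ → ℝ) (hU : QU.CD ∞ U) (g : SL(2, ℝ)) {v : ℂ} (hv : ‖v‖ ≤ 1) :
    ContDiffAt ℝ ∞ (fun w => VQ.Ug U g w - 1) v := by
  have h1 : ContDiffAt ℝ ∞ (VQ.Ug U g) v := (PFB_Ug U hU g).contDiffAt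
    (Metric.isOpen_ball.mem_nhds (by rw [Metric.mem_ball, dist_zero_right]; linarith))
  exact h1.sub contDiffAt_const

/-! ## Calculus of `CB` -/

section CBs

variable {V W W' : Type} [NormedAddCommGroup V] [NormedSpace ℝ V] [NormedAddCommGroup W] [NormedSpace ℝ W] [NormedAddCommGroup W']
  [NormedSpace ℝ W']

theorem PFB_mono {s : Set V} {A B : ℝ} {G : V → W} (h : CB s A G) (hAB : A ≤ B) : CB s B G :=
  ⟨h.diff, fun x hx => (h.b0 x hx).trans hAB, fun x hx => (h.b1 x hx).trans hAB, fun x hx y hy =>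
    (h.b2 x hx y hy).trans (mul_le_mul_of_nonneg_right hAB (norm_nonneg _))⟩

theorem PFB_clm {s : Set V} {A : ℝ} {G : V → W} (h : CB s A G) (L : W →L[ℝ] W') (hL : ‖L‖ ≤ 1) : CB s A (fun x => L (G x)) := by
  have hd : ∀ x ∈ s, HasFDerivAt (fun x => L (G x)) (L.comp (fderiv ℝ G x)) x := fun x hx =>
    L.hasFDerivAt.comp x (h.diff x hx).hasFDerivAt
  refine ⟨fun x hx => (hd x hx).differentiableAt, fun x hx => ?_, fun x hx => ?_, fun x hx y hy => ?_⟩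
  · refine (L.le_opNorm _).trans ?_
    calc ‖L‖ * ‖G x‖ ≤ 1 * ‖G x‖ := mul_le_mul_of_nonneg_right hL (norm_nonneg _)
      _ ≤ A := by rw [one_mul]; exact h.b0 x hx
  · rw [(hd x hx).fderiv]
    refine (ContinuousLinearMap.opNorm_comp_le _ _).trans ?_
    calc ‖L‖ * ‖fderiv ℝ G x‖ ≤ 1 * ‖fderiv ℝ G x‖ := mul_le_mul_of_nonneg_right hL (norm_nonneg _)
      _ ≤ A := by rw [one_mul]; exact h.b1 x hx
  · rw [(hd x hx).fderiv, (hd y hy).fderiv]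
    have e : L.comp (fderiv ℝ G x) - L.comp (fderiv ℝ G y) = L.comp (fderiv ℝ G x - fderiv ℝ G y) := by
      ext v
      simp
    rw [e]
    refine (ContinuousLinearMap.opNorm_comp_le _ _).trans ?_
    calc ‖L‖ * ‖fderiv ℝ G x - fderiv ℝ G y‖ ≤ 1 * ‖fderiv ℝ G x - fderiv ℝ G y‖ :=
          mul_le_mul_of_nonneg_right hL (norm_nonneg _)
      _ ≤ A * ‖x - y‖ := by rw [one_mul]; exact h.b2 x hx y hy

/-- a function with small derivatives of order at most two on a convex set -/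
theorem PFB_of {s : Set V} (hs : Convex ℝ s) {A : ℝ} {G : V → W} (h0 : ∀ x ∈ s, ‖G x‖ ≤ A) (h1 : ∀ x ∈ s, ‖fderiv ℝ G x‖ ≤ A)
    (h2 : ∀ x ∈ s, ‖fderiv ℝ (fderiv ℝ G) x‖ ≤ A) (hd : ∀ x ∈ s, DifferentiableAt ℝ G x)
    (hd2 : ∀ x ∈ s, DifferentiableAt ℝ (fderiv ℝ G) x) : CB s A G :=
  ⟨hd, h0, h1, fun x hx y hy => hs.norm_image_sub_le_of_norm_fderiv_le hd2 h2 hy hx⟩

end CBs

theorem PFB_pair {W : Type} [NormedAddCommGroup W] [NormedSpace ℝ W] (Φ : ℂ → W) (δ : ℝ)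
    (hat : ∀ v ∈ Metric.closedBall (0 : ℂ) 1, ContDiffAt ℝ ∞ Φ v)
    (hn : ∀ v ∈ Metric.closedBall (0 : ℂ) 1, ∀ n ≤ 2, ‖iteratedFDeriv ℝ n Φ v‖ ≤ δ) : CB (Metric.closedBall 0 1) δ Φ := by
  have hat1 : ∀ v ∈ Metric.closedBall (0 : ℂ) 1, ContDiffAt ℝ ∞ (fderiv ℝ Φ) v := fun v hv =>
    (hat v hv).fderiv_right (m := ∞) le_rfl
  refine PFB_of (convex_closedBall _ _) (fun v hv => ?_) (fun v hv => ?_) (fun v hv => ?_)
    (fun v hv => (hat v hv).differentiableAt (by simp)) (fun v hv => (hat1 v hv).differentiableAt (by simp))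
  · have := hn v hv 0 (by norm_num)
    rwa [norm_iteratedFDeriv_zero] at this
  · have := hn v hv 1 (by norm_num)
    rwa [← norm_iteratedFDeriv_fderiv, norm_iteratedFDeriv_zero] at this
  · have := hn v hv 2 (by norm_num)
    rwa [← norm_iteratedFDeriv_fderiv, ← norm_iteratedFDeriv_fderiv, norm_iteratedFDeriv_zero] at this

theorem PFB_Phi (Γ : Subgroup SL(2, ℝ)) (δ : ℝ) (B : ℕ → ℝ) (U : ℍ → ℝ) (hU : VQ.Pot Γ δ B U) (g : SL(2, ℝ)) :
    CB (Metric.closedBall 0 1) δ (fun w => VQ.Ug U g w - 1) ∧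
      CB (Metric.closedBall 0 1) δ (fderiv ℝ (fun w => VQ.Ug U g w - 1)) := by
  have hb : ∀ v : ℂ, v ∈ Metric.closedBall (0 : ℂ) 1 → ‖v‖ ≤ 1 := fun v hv => by
    rwa [Metric.mem_closedBall, dist_zero_right] at hv
  have hat : ∀ v ∈ Metric.closedBall (0 : ℂ) 1, ContDiffAt ℝ ∞ (fun w => VQ.Ug U g w - 1) v := fun v hv =>
    PFB_at U hU.smooth g (hb v hv)
  refine ⟨PFB_pair _ δ hat (fun v hv n h2 => hU.near g v (hb v hv) n (by omega)), ?_⟩
  refine PFB_pair _ δ (fun v hv => (hat v hv).fderiv_right (m := ∞) le_rfl) (fun v hv n h2 => ?_)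
  rw [norm_iteratedFDeriv_fderiv]
  exact hU.near g v (hb v hv) (n + 1) (by omega)

theorem PFB_proof (h1 : PZE_stmt) (h2 : PZC_stmt) (h3 : PCA_stmt) (h4 : PCI_stmt) : PFB_stmt := by
  obtain ⟨-, z2, z3⟩ := h1
  obtain ⟨K, hK, hze, het, hball⟩ := h2
  have hs : Convex ℝ (Metric.closedBall one2 (1 / 10 : ℝ)) := convex_closedBall _ _
  obtain ⟨a1, a2, a3⟩ := h3 (Fin 2 → Fin 2 → ℝ) (Metric.closedBall one2 (1 / 10)) hs
  have hK2 : 1 ≤ K ^ 2 := one_le_pow₀ hK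
  have hK3 : 1 ≤ K ^ 3 := one_le_pow₀ hK
  have hK23 : K ^ 2 ≤ K ^ 3 := pow_le_pow_right₀ hK (by norm_num)
  refine ⟨1000 * K ^ 3, by linarith, ?_⟩
  intro Γ δ B U hδ hKδ hU g
  obtain ⟨cb0, cb1⟩ := PFB_Phi Γ δ B U hU g
  have hmem : ∀ M ∈ Metric.closedBall one2 (1 / 10 : ℝ), ze M ∈ Metric.closedBall (0 : ℂ) 1 := fun M hM => by
    rw [Metric.mem_closedBall, dist_zero_right]
    linarith [hball M hM]
  -- the two basic functions
  have c1 : CB (Metric.closedBall one2 (1 / 10 : ℝ)) (3 * K ^ 2 * δ) (fun M => VQ.Ug U g (ze M) - 1) :=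
    a2 δ K (Metric.closedBall 0 1) (fun w => VQ.Ug U g w - 1) ze hδ hK cb0 hze hmem
  have hI : ‖(ContinuousLinearMap.mul ℝ ℂ).flip Complex.I‖ ≤ 1 := by
    refine ContinuousLinearMap.opNorm_le_bound _ zero_le_one fun x => ?_
    rw [ContinuousLinearMap.flip_apply, ContinuousLinearMap.mul_apply', norm_mul, Complex.norm_I, mul_one, one_mul]
  have hξ : CB (Metric.closedBall one2 (1 / 10 : ℝ)) K (fun M => et M * Complex.I) :=
    PFB_clm het ((ContinuousLinearMap.mul ℝ ℂ).flip Complex.I) hI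
  have c2 : CB (Metric.closedBall one2 (1 / 10 : ℝ)) (12 * K ^ 3 * δ)
      (fun M => fderiv ℝ (fun w => VQ.Ug U g w - 1) (ze M) (et M * Complex.I)) :=
    a3 δ K (Metric.closedBall 0 1) (fderiv ℝ (fun w => VQ.Ug U g w - 1)) ze (fun M => et M * Complex.I) hδ hK cb1 hze hξ hmem
  have hδ2 : 0 ≤ K ^ 2 * δ := by positivity
  have hδ3 : K ^ 2 * δ ≤ K ^ 3 * δ := mul_le_mul_of_nonneg_right hK23 hδ
  obtain ⟨s1, s2⟩ := h4 (Fin 2 → Fin 2 → ℝ) (Metric.closedBall one2 (1 / 10)) (3 * K ^ 2 * δ)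
    (fun M => VQ.Ug U g (ze M) - 1) hs (by nlinarith) (by nlinarith) c1
  have c3 : CB (Metric.closedBall one2 (1 / 10 : ℝ)) (4 * (12 * K ^ 3 * δ) * 10)
      (fun M => fderiv ℝ (fun w => VQ.Ug U g w - 1) (ze M) (et M * Complex.I) * (Real.sqrt (1 + (VQ.Ug U g (ze M) - 1)))⁻¹) :=
    (a1 (12 * K ^ 3 * δ) 10 _ _ (by positivity) (by norm_num) c2 s2).2
  have hL : ‖(-(1 / 4 : ℝ)) • (ContinuousLinearMap.id ℝ ℝ)‖ ≤ 1 := by
    refine ContinuousLinearMap.opNorm_le_bound _ zero_le_one fun x => ?_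
    rw [smul_apply, ContinuousLinearMap.id_apply, smul_eq_mul, norm_mul, one_mul, Real.norm_eq_abs]
    rw [abs_neg, abs_of_pos (by norm_num : (0 : ℝ) < 1 / 4)]
    have := norm_nonneg x
    linarith
  have c4 := PFB_clm c3 ((-(1 / 4 : ℝ)) • (ContinuousLinearMap.id ℝ ℝ)) hL
  refine ⟨_, _, PFB_mono s1 (by nlinarith), PFB_mono c4 (by nlinarith), ?_⟩
  intro D _
  have e1 : VQ.rho U 0 (g * D) = Real.sqrt (1 + (VQ.Ug U g (ze (mt D)) - 1)) := by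
    unfold VQ.rho
    rw [z2 U g D]
    congr 1
    ring
  refine ⟨by rw [e1], ?_⟩
  unfold VQ.kap
  rw [e1, z3 U g D hU.smooth]
  have e2 : fderiv ℝ (fun w => VQ.Ug U g w - 1) (ze (mt D)) = fderiv ℝ (VQ.Ug U g) (ze (mt D)) := by
    rw [fderiv_sub_const]
  have e3 : ∀ F S : ℝ, -(F / (2 * S)) / 2 = -(1 / 4) * (F * S⁻¹) := by
    intro F S
    rw [div_eq_mul_inv F, mul_inv]
    ring
  simp only [smul_apply, ContinuousLinearMap.id_apply, smul_eq_mul, e2]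
  exact e3 _ _

end

end Pool.Agent.VQE
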