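import Pool.Agent.helper62.VQ.SpecF
import Pool.Agent.helper57.VQE.CLO

/-!
# Project VQ (MP_07c750_an), block 5, row PFL: the fields are admissible
-/

set_option autoImplicit false

open scoped MatrixGroups ContDiff Topology UpperHalfPlane
open UpperHalfPlane MeasureTheory Filter Set

namespace Pool.Agent.VQE

open Pool.Agent.RS

noncomputable section

theorem PFL_one : mt (1 : SL(2, ℝ)) = one2 := by
  funext i j
  fin_cases i <;> fin_cases j <;> simp [mt, one2]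

/-- conjugation by an element near `1` -/
theorem PFL_conj (D E : SL(2, ℝ)) (hD : nm D ≤ 1 / 4) : nm (D⁻¹ * (E * D)) ≤ 4 * nm E := by
  obtain ⟨e1, e2, e3, e4⟩ := CLO_inv D (E * D)
  have hE00 : (E * D).1 0 0 = E.1 0 0 * D.1 0 0 + E.1 0 1 * D.1 1 0 := by
    show (E.1 * D.1) 0 0 = _
    rw [Matrix.mul_apply, Fin.sum_univ_two]
  have hE01 : (E * D).1 0 1 = E.1 0 0 * D.1 0 1 + E.1 0 1 * D.1 1 1 := by
    show (E.1 * D.1) 0 1 = _
    rw [Matrix.mul_apply, Fin.sum_univ_two]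
  have hE10 : (E * D).1 1 0 = E.1 1 0 * D.1 0 0 + E.1 1 1 * D.1 1 0 := by
    show (E.1 * D.1) 1 0 = _
    rw [Matrix.mul_apply, Fin.sum_univ_two]
  have hE11 : (E * D).1 1 1 = E.1 1 0 * D.1 0 1 + E.1 1 1 * D.1 1 1 := by
    show (E.1 * D.1) 1 1 = _
    rw [Matrix.mul_apply, Fin.sum_univ_two]
  rw [hE00, hE10] at e1
  rw [hE01, hE11] at e2
  rw [hE00, hE10] at e3
  rw [hE01, hE11] at e4
  have hdet : D.1 0 0 * D.1 1 1 - D.1 0 1 * D.1 1 0 = 1 := by
    have := D.2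
    rwa [Matrix.det_fin_two] at this
  have d1 : |D.1 0 0 - 1| ≤ 1 / 4 := ((le_max_left _ _).trans (le_max_left _ _)).trans hD
  have d2 : |D.1 0 1| ≤ 1 / 4 := ((le_max_right _ _).trans (le_max_left _ _)).trans hD
  have d3 : |D.1 1 0| ≤ 1 / 4 := ((le_max_left _ _).trans (le_max_right _ _)).trans hD
  have d4 : |D.1 1 1 - 1| ≤ 1 / 4 := ((le_max_right _ _).trans (le_max_right _ _)).trans hD
  have d1' : |D.1 0 0| ≤ 5 / 4 := by
    rw [abs_le] at d1 ⊢
    constructor <;> linarith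
  have d4' : |D.1 1 1| ≤ 5 / 4 := by
    rw [abs_le] at d4 ⊢
    constructor <;> linarith
  have n1 : |E.1 0 0 - 1| ≤ nm E := (le_max_left _ _).trans (le_max_left _ _)
  have n2 : |E.1 0 1| ≤ nm E := (le_max_right _ _).trans (le_max_left _ _)
  have n3 : |E.1 1 0| ≤ nm E := (le_max_left _ _).trans (le_max_right _ _)
  have n4 : |E.1 1 1 - 1| ≤ nm E := (le_max_right _ _).trans (le_max_right _ _)
  have hn : 0 ≤ nm E := (abs_nonneg _).trans n1
  have key : ∀ x y u v s t : ℝ, |x| ≤ 5 / 4 → |y| ≤ 1 / 4 → |u| ≤ nm E → |v| ≤ nm E → |s| ≤ 5 / 4 →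
      |(x * u + y * v) * s| ≤ 15 / 8 * nm E := by
    intro x y u v s t hx hy hu hv hs
    have k1 : |x * u| ≤ 5 / 4 * nm E := by
      rw [abs_mul]
      exact mul_le_mul hx hu (abs_nonneg _) (by norm_num)
    have k2 : |y * v| ≤ 1 / 4 * nm E := by
      rw [abs_mul]
      exact mul_le_mul hy hv (abs_nonneg _) (by norm_num)
    rw [abs_mul]
    have k3 : |x * u + y * v| ≤ 3 / 2 * nm E := (abs_add_le _ _).trans (by linarith)
    calc |x * u + y * v| * |s| ≤ 3 / 2 * nm E * (5 / 4) :=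
          mul_le_mul k3 hs (abs_nonneg _) (by positivity)
      _ = 15 / 8 * nm E := by ring
  have key2 : ∀ x y u v s : ℝ, |x| ≤ 5 / 4 → |y| ≤ 1 / 4 → |u| ≤ nm E → |v| ≤ nm E → |s| ≤ 1 / 4 →
      |(x * u + y * v) * s| ≤ 3 / 8 * nm E := by
    intro x y u v s hx hy hu hv hs
    have k1 : |x * u| ≤ 5 / 4 * nm E := by
      rw [abs_mul]
      exact mul_le_mul hx hu (abs_nonneg _) (by norm_num)
    have k2 : |y * v| ≤ 1 / 4 * nm E := by
      rw [abs_mul]
      exact mul_le_mul hy hv (abs_nonneg _) (by norm_num)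
    rw [abs_mul]
    have k3 : |x * u + y * v| ≤ 3 / 2 * nm E := (abs_add_le _ _).trans (by linarith)
    calc |x * u + y * v| * |s| ≤ 3 / 2 * nm E * (1 / 4) :=
          mul_le_mul k3 hs (abs_nonneg _) (by positivity)
      _ = 3 / 8 * nm E := by ring
  unfold nm
  refine max_le (max_le ?_ ?_) (max_le ?_ ?_)
  · rw [e1]
    have e : D.1 1 1 * (E.1 0 0 * D.1 0 0 + E.1 0 1 * D.1 1 0) - D.1 0 1 * (E.1 1 0 * D.1 0 0 + E.1 1 1 * D.1 1 0) - 1 =
        (D.1 1 1 * (E.1 0 0 - 1) + D.1 0 1 * (-E.1 1 0)) * D.1 0 0 +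
          (D.1 1 1 * E.1 0 1 + D.1 0 1 * (-(E.1 1 1 - 1))) * D.1 1 0 := by
      linear_combination hdet
    rw [e]
    refine (abs_add_le _ _).trans ?_
    have a1 := key (D.1 1 1) (D.1 0 1) (E.1 0 0 - 1) (-E.1 1 0) (D.1 0 0) 0 d4' d2 n1 (by rwa [abs_neg]) d1'
    have a2 := key2 (D.1 1 1) (D.1 0 1) (E.1 0 1) (-(E.1 1 1 - 1)) (D.1 1 0) d4' d2 n2 (by rwa [abs_neg]) d3
    show _ ≤ 4 * nm E
    linarith
  · rw [e2]
    have e : D.1 1 1 * (E.1 0 0 * D.1 0 1 + E.1 0 1 * D.1 1 1) - D.1 0 1 * (E.1 1 0 * D.1 0 1 + E.1 1 1 * D.1 1 1) =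
        (D.1 1 1 * (E.1 0 0 - 1) + D.1 0 1 * (-E.1 1 0)) * D.1 0 1 +
          (D.1 1 1 * E.1 0 1 + D.1 0 1 * (-(E.1 1 1 - 1))) * D.1 1 1 := by
      ring
    rw [e]
    refine (abs_add_le _ _).trans ?_
    have a1 := key2 (D.1 1 1) (D.1 0 1) (E.1 0 0 - 1) (-E.1 1 0) (D.1 0 1) d4' d2 n1 (by rwa [abs_neg]) d2
    have a2 := key (D.1 1 1) (D.1 0 1) (E.1 0 1) (-(E.1 1 1 - 1)) (D.1 1 1) 0 d4' d2 n2 (by rwa [abs_neg]) d4'
    show _ ≤ 4 * nm E
    linarith
  · rw [e3]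
    have e : -(D.1 1 0 * (E.1 0 0 * D.1 0 0 + E.1 0 1 * D.1 1 0)) + D.1 0 0 * (E.1 1 0 * D.1 0 0 + E.1 1 1 * D.1 1 0) =
        (D.1 0 0 * E.1 1 0 + D.1 1 0 * (-(E.1 0 0 - 1))) * D.1 0 0 +
          (D.1 0 0 * (E.1 1 1 - 1) + D.1 1 0 * (-E.1 0 1)) * D.1 1 0 := by
      ring
    rw [e]
    refine (abs_add_le _ _).trans ?_
    have a1 := key (D.1 0 0) (D.1 1 0) (E.1 1 0) (-(E.1 0 0 - 1)) (D.1 0 0) 0 d1' d3 n3 (by rwa [abs_neg]) d1'
    have a2 := key2 (D.1 0 0) (D.1 1 0) (E.1 1 1 - 1) (-E.1 0 1) (D.1 1 0) d1' d3 n4 (by rwa [abs_neg]) d3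
    show _ ≤ 4 * nm E
    linarith
  · rw [e4]
    have e : -(D.1 1 0 * (E.1 0 0 * D.1 0 1 + E.1 0 1 * D.1 1 1)) + D.1 0 0 * (E.1 1 0 * D.1 0 1 + E.1 1 1 * D.1 1 1) - 1 =
        (D.1 0 0 * E.1 1 0 + D.1 1 0 * (-(E.1 0 0 - 1))) * D.1 0 1 +
          (D.1 0 0 * (E.1 1 1 - 1) + D.1 1 0 * (-E.1 0 1)) * D.1 1 1 := by
      linear_combination hdet
    rw [e]
    refine (abs_add_le _ _).trans ?_
    have a1 := key2 (D.1 0 0) (D.1 1 0) (E.1 1 0) (-(E.1 0 0 - 1)) (D.1 0 1) d1' d3 n3 (by rwa [abs_neg]) d2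
    have a2 := key (D.1 0 0) (D.1 1 0) (E.1 1 1 - 1) (-E.1 0 1) (D.1 1 1) 0 d1' d3 n4 (by rwa [abs_neg]) d4'
    show _ ≤ 4 * nm E
    linarith

/-- one field -/
theorem PFL_field (hN : NMB_stmt) (hP : PSD_stmt) (A c : ℝ) (hA : 0 ≤ A) (r : SL(2, ℝ) → ℝ)
    (h : ∀ g : SL(2, ℝ), ∃ G : (Fin 2 → Fin 2 → ℝ) → ℝ, CB (Metric.closedBall one2 (1 / 10)) A G ∧
      ∀ D : SL(2, ℝ), nm D ≤ 1 / 10 → r (g * D) - c = G (mt D)) :
    (∀ g, |r g - c| ≤ A) ∧ (∀ g D, |r (g * D) - r g| ≤ 50 * A * nm D) ∧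
    ∀ g E D, nm D ≤ 1 / 4 → |r (g * E * D) - r (g * E) - r (g * D) + r g| ≤ 10000 * A * nm D * nm E := by
  have hn0 : ∀ D, 0 ≤ nm D := hN.1
  have hmem : one2 ∈ Metric.closedBall one2 (1 / 10 : ℝ) := Metric.mem_closedBall_self (by norm_num)
  have h1 : nm 1 = 0 := (hN.2.1 1).2 rfl
  have f0 : ∀ g, |r g - c| ≤ A := by
    intro g
    obtain ⟨G, hG, hr⟩ := h g
    have := hr 1 (by rw [h1]; norm_num)
    rw [mul_one, PFL_one] at this
    rw [this, ← Real.norm_eq_abs]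
    exact hG.b0 _ hmem
  have f1 : ∀ g D, |r (g * D) - r g| ≤ 50 * A * nm D := by
    intro g D
    rcases le_total (nm D) (1 / 25) with hD | hD
    · obtain ⟨G, hG, hr⟩ := h g
      have r1 := hr D (by linarith)
      have r0 := hr 1 (by rw [h1]; norm_num)
      rw [mul_one, PFL_one] at r0
      have e : r (g * D) - r g = G (mt D) - G one2 := by linarith
      rw [e]
      refine ((hP A G hA hG D 1 hD (by rw [h1]; norm_num)).1).trans ?_
      have := mul_nonneg hA (hn0 D)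
      linarith
    · have a1 := f0 (g * D)
      have a2 := f0 g
      have e : r (g * D) - r g = (r (g * D) - c) - (r g - c) := by ring
      rw [e]
      refine (abs_sub _ _).trans ?_
      have := mul_le_mul_of_nonneg_left hD hA
      linarith
  refine ⟨f0, f1, ?_⟩
  intro g E D hD4
  rcases le_total (nm E) (1 / 25) with hE | hE
  · rcases le_total (nm D) (1 / 25) with hD | hD
    · obtain ⟨G, hG, hr⟩ := h g
      have hED : nm (E * D) ≤ 1 / 10 := by
        refine (hN.2.2.2.2.2.1 E D).trans ?_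
        have := mul_le_mul hE hD (hn0 D) (by norm_num)
        linarith
      have r3 := hr (E * D) hED
      have r2 := hr E (by linarith)
      have r1 := hr D (by linarith)
      have r0 := hr 1 (by rw [h1]; norm_num)
      rw [mul_one, PFL_one] at r0
      rw [← mul_assoc] at r3
      have e : r (g * E * D) - r (g * E) - r (g * D) + r g = G (mt (E * D)) - G (mt E) - G (mt D) + G one2 := by
        linarith
      rw [e]
      refine ((hP A G hA hG D E hD hE).2).trans ?_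
      have := mul_nonneg (mul_nonneg hA (hn0 D)) (hn0 E)
      nlinarith
    · have e : r (g * E * D) - r (g * E) - r (g * D) + r g =
          (r (g * D * (D⁻¹ * (E * D))) - r (g * D)) - (r (g * E) - r g) := by
        have : g * D * (D⁻¹ * (E * D)) = g * E * D := by group
        rw [this]
        ring
      rw [e]
      refine (abs_sub _ _).trans ?_
      have a1 := f1 (g * D) (D⁻¹ * (E * D))
      have a2 := f1 g E
      have a3 := PFL_conj D E hD4
      have a4 : 50 * A * nm (D⁻¹ * (E * D)) ≤ 50 * A * (4 * nm E) :=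
        mul_le_mul_of_nonneg_left a3 (by positivity)
      have a5 : 0 ≤ A * nm E := mul_nonneg hA (hn0 E)
      have a6 : A * nm E * (1 / 25) ≤ A * nm E * nm D := mul_le_mul_of_nonneg_left hD a5
      nlinarith
  · have e : r (g * E * D) - r (g * E) - r (g * D) + r g =
        (r (g * E * D) - r (g * E)) - (r (g * D) - r g) := by ring
    rw [e]
    refine (abs_sub _ _).trans ?_
    have a1 := f1 (g * E) D
    have a2 := f1 g D
    have a5 : 0 ≤ A * nm D := mul_nonneg hA (hn0 D)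
    have a6 : A * nm D * (1 / 25) ≤ A * nm D * nm E := mul_le_mul_of_nonneg_left hE a5
    nlinarith

theorem PFL_proof (h1 : NMB_stmt) (h2 : PSD_stmt) (h3 : PFB_stmt) : PFL_stmt := by
  obtain ⟨K, hK, h⟩ := h3
  refine ⟨10000 * K, by linarith, ?_⟩
  intro Γ δ B U hδ hKδ hU
  have hδK : 0 ≤ K * δ := mul_nonneg (by linarith) hδ
  have hH := h Γ δ B U hδ (by nlinarith) hU
  obtain ⟨p0, p1, p2⟩ := PFL_field h1 h2 (K * δ) 1 hδK (VQ.rho U 0) (fun g => by
    obtain ⟨G, H, hG, -, hr⟩ := hH g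
    exact ⟨G, hG, fun D hD => (hr D hD).1⟩)
  obtain ⟨q0, q1, q2⟩ := PFL_field h1 h2 (K * δ) 0 hδK (fun g => -(VQ.kap U 0 g) / 2) (fun g => by
    obtain ⟨G, H, -, hG, hr⟩ := hH g
    exact ⟨H, hG, fun D hD => by
      show -(VQ.kap U 0 (g * D)) / 2 - 0 = _
      rw [sub_zero]
      exact (hr D hD).2⟩)
  have hn0 : ∀ D, 0 ≤ nm D := h1.1
  have m1 : ∀ D, 50 * (K * δ) * nm D ≤ 10000 * K * δ * nm D := fun D => by
    have := mul_nonneg hδK (hn0 D)
    nlinarith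
  refine ⟨?_, ?_, ?_, ?_, ?_, ?_⟩
  · intro g
    exact (p0 g).trans (by nlinarith)
  · intro g
    have := q0 g
    rw [sub_zero] at this
    exact this.trans (by nlinarith)
  · exact fun g D => (p1 g D).trans (m1 D)
  · exact fun g D => (q1 g D).trans (m1 D)
  · intro g E D hD
    refine (p2 g E D hD).trans (le_of_eq ?_)
    ring
  · intro g E D hD
    refine (q2 g E D hD).trans (le_of_eq ?_)
    ring

end

end Pool.Agent.VQE
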