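import Pool.Agent.helper62.VQ.SpecE
import Pool.Agent.helper57.VQE.CLO

/-!
# Project VQ (MP_07c750_an), block 5, row SYN: synchronised pairs are orbits
-/

set_option autoImplicit false

open scoped MatrixGroups ContDiff Topology UpperHalfPlane
open UpperHalfPlane MeasureTheory Filter Set

namespace Pool.Agent.VQE

open Pool.Agent.RS

noncomputable section

theorem SYN_dg {b c : ℝ} (h : 0 ≤ 1 + b * c) : (dg b c).1 = !![√(1 + b * c), b; c, √(1 + b * c)] := by
  unfold dg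
  rw [dif_pos h]

theorem SYN_pos {b c : ℝ} (hb : |b| ≤ 1 / 8) (hc : |c| ≤ 1 / 8) : 63 / 64 ≤ 1 + b * c := by
  have h := mul_le_mul hb hc (abs_nonneg _) (by norm_num)
  rw [← abs_mul] at h
  have := neg_abs_le (b * c)
  linarith

theorem SYN_sqrt {b c : ℝ} (hb : |b| ≤ 1 / 8) (hc : |c| ≤ 1 / 8) : 63 / 64 ≤ √(1 + b * c) := by
  have h := SYN_pos hb hc
  refine Real.le_sqrt_of_sq_le ?_
  nlinarith

/-- the denominator of `sg` is positive -/
theorem SYN_den {δ : ℝ} {p q : SL(2, ℝ) → ℝ} (hδ0 : 0 ≤ δ) (hδ : δ ≤ 1 / 10000) (hF : Fld δ p q) (g : SL(2, ℝ)) {b c : ℝ} (hb : |b| ≤ 1 / 8)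
    (hc : |c| ≤ 1 / 8) : 0 < √(1 + b * c) * p g + (b + c) * q g := by
  have h1 := SYN_sqrt hb hc
  have h2 := hF.p0 g
  have h3 := hF.q0 g
  have h4 : |(b + c) * q g| ≤ 1 / 4 * δ := by
    rw [abs_mul]
    refine mul_le_mul ((abs_add_le b c).trans (by linarith)) h3 (abs_nonneg _) (by norm_num)
  have h5 := neg_abs_le ((b + c) * q g)
  have h6 : 1 - δ ≤ p g := by
    rw [abs_le] at h2
    linarith
  have h7 : 63 / 64 * (1 - δ) ≤ √(1 + b * c) * p g :=
    mul_le_mul h1 h6 (by linarith) (by linarith)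
  nlinarith

/-- the algebra of the synchronised system -/
theorem SYN_alg {δ : ℝ} {p q : SL(2, ℝ) → ℝ} (hδ0 : 0 ≤ δ) (hδ : δ ≤ 1 / 10000) (hF : Fld δ p q) (g : SL(2, ℝ)) {b c : ℝ} (hb : |b| ≤ 1 / 8)
    (hc : |c| ≤ 1 / 8) : √(1 + b * c) * (p (g * dg b c) * sg p q g b c - p g) + (b + c) * (q (g * dg b c) * sg p q g b c + q g) = 0 := by
  have h := SYN_den hδ0 hδ hF (g * dg b c) hb hc
  unfold sg
  field_simp
  ring

/-- the derivative of the second orbit -/
theorem SYN_D2 {δ : ℝ} {p q : SL(2, ℝ) → ℝ} {f : ℝ → SL(2, ℝ) → SL(2, ℝ)} (hδ0 : 0 ≤ δ) (hδ : δ ≤ 1 / 10000) (hF : Fld δ p q)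
    (hf : Flw p q f) {g : SL(2, ℝ)} {x y : ℝ → ℝ} (hS : SM p q f g x y) {t : ℝ} (ht : 0 ≤ t) (hb : |x t| ≤ 1 / 8) (hc : |y t| ≤ 1 / 8) :
    CLO_D (fun s => f s g * dg (x s) (y s)) (p (f t g * dg (x t) (y t)) * sg p q (f t g) (x t) (y t))
      (q (f t g * dg (x t) (y t)) * sg p q (f t g) (x t) (y t)) t := by
  have hpos := SYN_pos hb hc
  have hsq := SYN_sqrt hb hc
  have hdx := hS.dx t ht
  have hdy := hS.dy t ht
  have halg := SYN_alg hδ0 hδ hF (f t g) hb hc
  obtain ⟨P, hP⟩ : ∃ P, P = p (f t g * dg (x t) (y t)) * sg p q (f t g) (x t) (y t) := ⟨_, rfl⟩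
  obtain ⟨Q, hQ⟩ : ∃ Q, Q = q (f t g * dg (x t) (y t)) * sg p q (f t g) (x t) (y t) := ⟨_, rfl⟩
  obtain ⟨A, hA⟩ : ∃ A, A = √(1 + x t * y t) := ⟨_, rfl⟩
  have hu' : hu p q (f t g) (x t) (y t) = ((P + p (f t g)) / 2 - 1) * x t + A * (Q - q (f t g)) := by
    rw [hP, hQ, hA]
    rfl
  have hv' : hv p q (f t g) (x t) (y t) = ((P + p (f t g)) / 2 - 1) * y t + A * (Q - q (f t g)) := by
    rw [hP, hQ, hA]
    rfl
  rw [hu'] at hdx
  rw [hv'] at hdy
  rw [← hP, ← hQ, ← hA] at halg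
  rw [← hP, ← hQ]
  rw [← hA] at hsq
  have hA0 : A ≠ 0 := by
    intro h
    rw [h] at hsq
    norm_num at hsq
  -- the derivative of the square root
  have hdA : HasDerivAt (fun s => √(1 + x s * y s)) ((x t - y t) * (Q - q (f t g)) / 2) t := by
    have h1 : HasDerivAt (fun s => 1 + x s * y s) ((-x t - (((P + p (f t g)) / 2 - 1) * x t + A * (Q - q (f t g)))) * y t +
        x t * (y t + (((P + p (f t g)) / 2 - 1) * y t + A * (Q - q (f t g))))) t := (hdx.mul hdy).const_add 1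
    have h2 := h1.sqrt (by linarith)
    refine h2.congr_deriv ?_
    rw [← hA]
    field_simp
    ring
  -- the entries near `t`
  have hev : ∀ᶠ s in 𝓝 t, 0 ≤ 1 + x s * y s := by
    have h1 : ContinuousAt (fun s => 1 + x s * y s) t :=
      continuousAt_const.add (hdx.continuousAt.mul hdy.continuousAt)
    have h2 : ∀ᶠ s in 𝓝 t, 0 < 1 + x s * y s := h1.eventually (lt_mem_nhds (by linarith))
    exact h2.mono fun s hs => hs.le
  have ent : ∀ s, 0 ≤ 1 + x s * y s → ∀ i : Fin 2,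
      (f s g * dg (x s) (y s)).1 i 0 = (f s g).1 i 0 * √(1 + x s * y s) + (f s g).1 i 1 * y s ∧
      (f s g * dg (x s) (y s)).1 i 1 = (f s g).1 i 0 * x s + (f s g).1 i 1 * √(1 + x s * y s) := by
    intro s hs i
    have h1 : (f s g * dg (x s) (y s)).1 = (f s g).1 * (dg (x s) (y s)).1 := rfl
    rw [h1, SYN_dg hs]
    constructor <;> simp [Matrix.mul_apply, Fin.sum_univ_two]
  have ht1 : 0 ≤ 1 + x t * y t := by linarith
  constructor
  · intro i
    have h1 : HasDerivAt (fun s => (f s g).1 i 0 * √(1 + x s * y s) + (f s g).1 i 1 * y s)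
        (((f t g).1 i 0 * (p (f t g) / 2) + (f t g).1 i 1 * q (f t g)) * √(1 + x t * y t) +
          (f t g).1 i 0 * ((x t - y t) * (Q - q (f t g)) / 2) +
          ((-((f t g).1 i 0 * q (f t g)) - (f t g).1 i 1 * (p (f t g) / 2)) * y t +
          (f t g).1 i 1 * (y t + (((P + p (f t g)) / 2 - 1) * y t + A * (Q - q (f t g)))))) t :=
      ((hf.d0 i t g).mul hdA).add ((hf.d1 i t g).mul hdy)
    have h2 : (fun s => (f s g * dg (x s) (y s)).1 i 0) =ᶠ[𝓝 t]
        fun s => (f s g).1 i 0 * √(1 + x s * y s) + (f s g).1 i 1 * y s :=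
      hev.mono fun s hs => (ent s hs i).1
    refine (h1.congr_of_eventuallyEq h2).congr_deriv ?_
    rw [(ent t ht1 i).1, (ent t ht1 i).2, ← hA]
    linear_combination (-(f t g).1 i 0 / 2) * halg
  · intro i
    have h1 : HasDerivAt (fun s => (f s g).1 i 0 * x s + (f s g).1 i 1 * √(1 + x s * y s))
        (((f t g).1 i 0 * (p (f t g) / 2) + (f t g).1 i 1 * q (f t g)) * x t +
          (f t g).1 i 0 * (-x t - (((P + p (f t g)) / 2 - 1) * x t + A * (Q - q (f t g)))) +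
          ((-((f t g).1 i 0 * q (f t g)) - (f t g).1 i 1 * (p (f t g) / 2)) * √(1 + x t * y t) +
          (f t g).1 i 1 * ((x t - y t) * (Q - q (f t g)) / 2))) t :=
      ((hf.d0 i t g).mul hdx).add ((hf.d1 i t g).mul hdA)
    have h2 : (fun s => (f s g * dg (x s) (y s)).1 i 1) =ᶠ[𝓝 t]
        fun s => (f s g).1 i 0 * x s + (f s g).1 i 1 * √(1 + x s * y s) :=
      hev.mono fun s hs => (ent s hs i).2
    refine (h1.congr_of_eventuallyEq h2).congr_deriv ?_
    rw [(ent t ht1 i).1, (ent t ht1 i).2, ← hA]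
    linear_combination ((f t g).1 i 1 / 2) * halg

/-- continuity of `dg` along continuous functions -/
theorem SYN_dgc {X Y : ℝ → ℝ} (hX : Continuous X) (hY : Continuous Y) (h : ∀ s, 0 ≤ 1 + X s * Y s) :
    Continuous (fun s => dg (X s) (Y s)) := by
  have hc : Continuous (fun s => ((dg (X s) (Y s)).1 : Matrix (Fin 2) (Fin 2) ℝ)) := by
    have e : (fun s => ((dg (X s) (Y s)).1 : Matrix (Fin 2) (Fin 2) ℝ)) =
        fun s => (!![√(1 + X s * Y s), X s; Y s, √(1 + X s * Y s)] : Matrix (Fin 2) (Fin 2) ℝ) := by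
      funext s
      exact SYN_dg (h s)
    rw [e]
    refine continuous_matrix fun i j => ?_
    fin_cases i <;> fin_cases j <;> simp <;> fun_prop
  exact continuous_induced_rng.2 hc

theorem SYN_proof (h1 : NMB_stmt) (h2 : UVX_stmt) : SYN_stmt := by
  intro δ p q f hδ0 hδ hF hf g x y hS t ht
  obtain ⟨hpc, hqc, hUV⟩ := h2 δ p q hδ0 (by linarith) hF
  -- the pair stays small
  have hx : ∀ s, 0 ≤ s → |x s| ≤ 1 / 8 := by
    intro s hs
    refine (hS.dec s hs).trans ?_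
    have e1 : Real.exp (-(9 / 10 * s)) ≤ 1 := Real.exp_le_one_iff.2 (by linarith)
    calc |x 0| * Real.exp (-(9 / 10 * s)) ≤ 1 / 8 * 1 :=
          mul_le_mul hS.sml e1 (Real.exp_pos _).le (by norm_num)
      _ = 1 / 8 := by norm_num
  have hy : ∀ s, 0 ≤ s → |y s| ≤ 1 / 8 := fun s hs => (hS.cone s hs).trans (by linarith [hx s hs])
  -- the speed, extended to negative times
  obtain ⟨τ', hτ'⟩ : ∃ τ' : ℝ → ℝ, τ' = fun s => sg p q (f (max s 0) g) (x (max s 0)) (y (max s 0)) := ⟨_, rfl⟩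
  have hXc : Continuous (fun s => x (max s 0)) := by
    rw [continuous_iff_continuousAt]
    intro s
    exact ContinuousAt.comp (f := fun s : ℝ => max s 0) (g := x) ((hS.dx _ (le_max_right s 0)).continuousAt)
      (by fun_prop)
  have hYc : Continuous (fun s => y (max s 0)) := by
    rw [continuous_iff_continuousAt]
    intro s
    exact ContinuousAt.comp (f := fun s : ℝ => max s 0) (g := y) ((hS.dy _ (le_max_right s 0)).continuousAt)
      (by fun_prop)
  have hFc : Continuous (fun s => f (max s 0) g) := (CLO_orbit_cont hf g).comp (by fun_prop)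
  have hpos : ∀ s, 0 ≤ 1 + x (max s 0) * y (max s 0) := fun s => by
    have := SYN_pos (hx _ (le_max_right s 0)) (hy _ (le_max_right s 0))
    linarith
  have hDc : Continuous (fun s => dg (x (max s 0)) (y (max s 0))) := SYN_dgc hXc hYc hpos
  have hτc : Continuous τ' := by
    rw [hτ']
    unfold sg
    refine Continuous.div ?_ ?_ ?_
    · exact ((Real.continuous_sqrt.comp (continuous_const.add (hXc.mul hYc))).mul (hpc.comp hFc)).sub
        ((hXc.add hYc).mul (hqc.comp hFc))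
    · exact ((Real.continuous_sqrt.comp (continuous_const.add (hXc.mul hYc))).mul (hpc.comp (hFc.mul hDc))).add
        ((hXc.add hYc).mul (hqc.comp (hFc.mul hDc)))
    · intro s
      exact (SYN_den hδ0 hδ hF _ (hx _ (le_max_right s 0)) (hy _ (le_max_right s 0))).ne'
  have hτb : ∀ s, |τ' s| ≤ 2 := by
    intro s
    have a1 := (hUV (x (max s 0)) (y (max s 0)) 0 0 (hx _ (le_max_right s 0)) (hy _ (le_max_right s 0))
      (by norm_num) (by norm_num)).2.2.1 (f (max s 0) g)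
    have a2 := hx _ (le_max_right s 0)
    have a3 := hy _ (le_max_right s 0)
    have a4 : 10 * δ * (|x (max s 0)| + |y (max s 0)|) ≤ 10 * (1 / 10000) * (1 / 8 + 1 / 8) := by
      gcongr
    rw [hτ']
    show |sg p q (f (max s 0) g) (x (max s 0)) (y (max s 0))| ≤ 2
    rw [abs_le] at a1 ⊢
    constructor <;> linarith
  have hτd : ∀ s, HasDerivAt (fun u => ∫ r in (0 : ℝ)..u, τ' r) (τ' s) s := fun s =>
    intervalIntegral.integral_hasDerivAt_right (hτc.intervalIntegrable _ _)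
      (hτc.stronglyMeasurableAtFilter _ _) hτc.continuousAt
  have hint : ∫ s in (0 : ℝ)..t, sg p q (f s g) (x s) (y s) = ∫ s in (0 : ℝ)..t, τ' s := by
    refine intervalIntegral.integral_congr fun s hs => ?_
    rw [Set.uIcc_of_le ht] at hs
    rw [hτ']
    simp only [max_eq_left hs.1]
  rw [hint]
  obtain ⟨g2, hg2⟩ : ∃ g2, g2 = g * dg (x 0) (y 0) := ⟨_, rfl⟩
  rw [← hg2]
  have hττ : ∀ s, 0 ≤ s → τ' s = sg p q (f s g) (x s) (y s) := by
    intro s hs
    rw [hτ']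
    simp only [max_eq_left hs]
  -- the two orbits
  have hD2 : ∀ s, 0 ≤ s → CLO_D (fun s => f s g * dg (x s) (y s)) (p (f s g * dg (x s) (y s)) * τ' s)
      (q (f s g * dg (x s) (y s)) * τ' s) s := by
    intro s hs
    rw [hττ s hs]
    exact SYN_D2 hδ0 hδ hF hf hS hs (hx s hs) (hy s hs)
  have hD3 : ∀ s, CLO_D (fun s => f (∫ r in (0 : ℝ)..s, τ' r) g2) (p (f (∫ r in (0 : ℝ)..s, τ' r) g2) * τ' s)
      (q (f (∫ r in (0 : ℝ)..s, τ' r) g2) * τ' s) s := by
    intro s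
    constructor
    · intro i
      have h5 := (hf.d0 i (∫ r in (0 : ℝ)..s, τ' r) g2).comp s (hτd s)
      refine HasDerivAt.congr_deriv h5 ?_
      ring
    · intro i
      have h5 := (hf.d1 i (∫ r in (0 : ℝ)..s, τ' r) g2).comp s (hτd s)
      refine HasDerivAt.congr_deriv h5 ?_
      ring
  have hVd : ∀ s, 0 ≤ s → HasDerivAt (fun s => CLO_V ((f s g * dg (x s) (y s))⁻¹ * f (∫ r in (0 : ℝ)..s, τ' r) g2))
      (CLO_V' ((f s g * dg (x s) (y s))⁻¹ * f (∫ r in (0 : ℝ)..s, τ' r) g2) (p (f s g * dg (x s) (y s)) * τ' s)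
        (q (f s g * dg (x s) (y s)) * τ' s) (p (f (∫ r in (0 : ℝ)..s, τ' r) g2) * τ' s)
        (q (f (∫ r in (0 : ℝ)..s, τ' r) g2) * τ' s)) s := fun s hs =>
    CLO_deriv (fun s => f s g * dg (x s) (y s)) (fun s => f (∫ r in (0 : ℝ)..s, τ' r) g2) _ _ _ _ s (hD2 s hs) (hD3 s)
  have hgr := CLO_gron (fun s => f s g * dg (x s) (y s)) (fun s => f (∫ r in (0 : ℝ)..s, τ' r) g2)
    (fun s => CLO_V' ((f s g * dg (x s) (y s))⁻¹ * f (∫ r in (0 : ℝ)..s, τ' r) g2) (p (f s g * dg (x s) (y s)) * τ' s)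
        (q (f s g * dg (x s) (y s)) * τ' s) (p (f (∫ r in (0 : ℝ)..s, τ' r) g2) * τ' s)
        (q (f (∫ r in (0 : ℝ)..s, τ' r) g2) * τ' s)) t 4 0 (by norm_num) (by
      simp only [intervalIntegral.integral_same]
      rw [hf.zero, hf.zero, hg2]) (fun s hs => (hVd s hs.1).continuousAt.continuousWithinAt)
    (fun s hs => (hVd s hs.1).hasDerivWithinAt) (by
      intro s hs
      obtain ⟨A, hA⟩ : ∃ A, A = f s g * dg (x s) (y s) := ⟨_, rfl⟩
      obtain ⟨B, hB⟩ : ∃ B, B = f (∫ r in (0 : ℝ)..s, τ' r) g2 := ⟨_, rfl⟩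
      show ‖CLO_V' ((f s g * dg (x s) (y s))⁻¹ * f (∫ r in (0 : ℝ)..s, τ' r) g2) (p (f s g * dg (x s) (y s)) * τ' s)
        (q (f s g * dg (x s) (y s)) * τ' s) (p (f (∫ r in (0 : ℝ)..s, τ' r) g2) * τ' s)
        (q (f (∫ r in (0 : ℝ)..s, τ' r) g2) * τ' s)‖ ≤
        4 * nm ((f s g * dg (x s) (y s))⁻¹ * f (∫ r in (0 : ℝ)..s, τ' r) g2) + 0
      rw [← hA, ← hB]
      obtain ⟨E, hE⟩ : ∃ E, E = A⁻¹ * B := ⟨_, rfl⟩
      have hBE : B = A * E := by rw [hE]; group
      rw [← hE, hBE]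
      have hn : 0 ≤ nm E := h1.1 E
      have hpb : ∀ g, |p g| ≤ 1 + δ := fun g => by
        have := hF.p0 g
        rw [abs_le] at this ⊢
        constructor <;> linarith
      have c1 : ∀ g, |p g * τ' s| ≤ (1 + δ) * 2 := fun g => by
        rw [abs_mul]
        exact mul_le_mul (hpb g) (hτb s) (abs_nonneg _) (by linarith)
      have c2 : ∀ g, |q g * τ' s| ≤ δ * 2 := fun g => by
        rw [abs_mul]
        exact mul_le_mul (hF.q0 g) (hτb s) (abs_nonneg _) hδ0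
      have c3 : |p (A * E) * τ' s - p A * τ' s| ≤ δ * nm E * 2 := by
        rw [← sub_mul, abs_mul]
        exact mul_le_mul (hF.p1 _ _) (hτb s) (abs_nonneg _) (by positivity)
      have c4 : |q (A * E) * τ' s - q A * τ' s| ≤ δ * nm E * 2 := by
        rw [← sub_mul, abs_mul]
        exact mul_le_mul (hF.q1 _ _) (hτb s) (abs_nonneg _) (by positivity)
      refine (CLO_bound E _ _ _ _ ((1 + δ) * 2) (δ * 2) (δ * nm E * 2) (c1 _) (c1 _) (c2 _) (c2 _) c3 c4).trans ?_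
      have hc : (1 + δ) * 2 + 2 * (δ * 2) + δ * 2 ≤ 4 := by linarith
      nlinarith [mul_le_mul_of_nonneg_right hc hn]) t ⟨ht, le_refl t⟩
  have h0 : nm ((f t g * dg (x t) (y t))⁻¹ * f (∫ r in (0 : ℝ)..t, τ' r) g2) = 0 := by
    refine le_antisymm (hgr.trans ?_) (h1.1 _)
    simp
  have h3 := (h1.2.1 _).1 h0
  have h4 := eq_of_inv_mul_eq_one h3
  exact h4.symm

end

end Pool.Agent.VQE
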